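import Pool.Agent.Helper99.MKV.GoalsC

/-! # MKV, packet FVB -/

open Finset

namespace Pool.Agent.Helper51.MKV

open Pool.Agent.Helper99.MKV Pool.Agent.Helper99.EXC Pool.Agent.Helper99.ERW

lemma sub_not_mem {b j k : ℕ} (hjk : j ≤ k) {x z : Site 2} (hx : x ∉ Bx b (k + 1))
    (hz : z ∈ Bx b k) : x - z ∉ Bx b j := by
  intro h
  apply hx
  unfold Bx at *
  rw [mem_box] at *
  intro l
  have h1 := h l
  have h2 := hz l
  have h3 : b * 2 ^ j ≤ b * 2 ^ k := Nat.mul_le_mul_left _ (Nat.pow_le_pow_right (by norm_num) hjk)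
  have h4 : x l = (x - z) l + z l := by simp
  have h5 : ((b * 2 ^ j : ℕ) : ℤ) ≤ ((b * 2 ^ k : ℕ) : ℤ) := by exact_mod_cast h3
  calc |x l| = |(x - z) l + z l| := by rw [← h4]
    _ ≤ |(x - z) l| + |z l| := abs_add_le _ _
    _ ≤ ((b * 2 ^ k : ℕ) : ℤ) + ((b * 2 ^ k : ℕ) : ℤ) := by linarith
    _ = ((b * 2 ^ (k + 1) : ℕ) : ℤ) := by push_cast; ring

lemma fv_bound {E : Type} {Φ : ℕ → Site 2 → ℝ} {S : Site 2 → E → ℝ} {b j k : ℕ}
    {v : Site 2 → ℝ} {t : MSt E} {K A B X : ℝ} (hK : ((Bx b k).card : ℝ) ≤ K * 4 ^ k)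
    (hA : 0 ≤ A) (hB : 0 ≤ B) (hX : 0 ≤ X) (hv : ∀ x, |v x| ≤ A / 4 ^ k)
    (hS : ∀ z e, |S z e| ≤ B)
    (h : ∀ z ∈ Bx b k, |Df (Φ j) (t.1 - z) - Df (Φ k) t.1| ≤ X) :
    |fv Φ S b j k v t| ≤ K * A * B * X := by
  unfold fv
  have h4 : (0 : ℝ) < 4 ^ k := by positivity
  calc |∑ z ∈ Bx b k, v z * S z (t.2 z) * (Df (Φ j) (t.1 - z) - Df (Φ k) t.1)|
      ≤ ∑ z ∈ Bx b k, |v z * S z (t.2 z) * (Df (Φ j) (t.1 - z) - Df (Φ k) t.1)| :=
        Finset.abs_sum_le_sum_abs _ _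
    _ ≤ ∑ _z ∈ Bx b k, A / 4 ^ k * B * X := by
        refine Finset.sum_le_sum fun z hz => ?_
        rw [abs_mul, abs_mul]
        exact mul_le_mul (mul_le_mul (hv z) (hS z _) (abs_nonneg _) (by positivity)) (h z hz)
          (abs_nonneg _) (by positivity)
    _ = (Bx b k).card * (A / 4 ^ k * B * X) := by rw [Finset.sum_const, nsmul_eq_mul]
    _ ≤ K * 4 ^ k * (A / 4 ^ k * B * X) := mul_le_mul_of_nonneg_right hK (by positivity)
    _ = K * A * B * X := by field_simp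

theorem FVB (hSMS : SMS_stmt) : FVB_stmt := by
  intro κ C b B hκ hC hb hB
  obtain ⟨K, hK1, hK, -⟩ := hSMS b hb
  refine ⟨K * B * (2 * C), by positivity, ?_⟩
  intro E ι _ U a S φ Φ k1 hD hΦ j k hj hjk A v hv t
  obtain ⟨hA, -, hvb⟩ := hv
  have hk : k1 ≤ k := hj.trans hjk
  have hfar : t.1 ∉ Bx b (k + 1) → |fv Φ S b j k v t| ≤
      K * B * (2 * C) * A * 2 ^ k / (1 + nm t.1) ^ 3 := by
    intro hx
    have hn : 0 ≤ nm t.1 := (abs_nonneg _).trans (le_max_left _ _)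
    have h0 : ∀ z ∈ Bx b k, |Df (Φ j) (t.1 - z) - Df (Φ k) t.1| ≤
        C * 2 ^ k / (1 + nm t.1) ^ 3 := by
      intro z hz
      rw [hΦ.dout j hj _ (sub_not_mem hjk hx hz)]
      exact hΦ.far k hk z hz _ hx
    refine (fv_bound (hK k) hA (by linarith) (by positivity) hvb hD.bd h0).trans ?_
    have e1 : K * B * (2 * C) * A * 2 ^ k / (1 + nm t.1) ^ 3 =
      2 * (K * A * B * (C * 2 ^ k / (1 + nm t.1) ^ 3)) := by ring
    rw [e1]
    have : 0 ≤ K * A * B * (C * 2 ^ k / (1 + nm t.1) ^ 3) := by positivity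
    linarith
  refine ⟨?_, hfar⟩
  by_cases hx : t.1 ∈ Bx b (k + 1)
  · have h4 : (4 : ℝ) ^ k = 4 ^ (k - j) * 4 ^ j := by rw [← pow_add, Nat.sub_add_cancel hjk]
    have hN : Nk b k t.1 = 1 / 4 ^ k := by unfold Nk; rw [if_pos hx]
    have h0 : ∀ z ∈ Bx b k, |Df (Φ j) (t.1 - z) - Df (Φ k) t.1| ≤ 2 * C / 4 ^ j := by
      intro z _
      have e1 := hΦ.dphi1 j hj (t.1 - z)
      have e2 := hΦ.dphi1 k hk t.1
      have e3 : C / 4 ^ k ≤ C / 4 ^ j := by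
        apply div_le_div_of_nonneg_left (by linarith) (by positivity)
        exact pow_le_pow_right₀ (by norm_num) hjk
      have e4 := abs_sub (Df (Φ j) (t.1 - z)) (Df (Φ k) t.1)
      have e5 : 2 * C / 4 ^ j = C / 4 ^ j + C / 4 ^ j := by ring
      rw [e5]
      linarith
    refine (fv_bound (hK k) hA (by linarith) (by positivity) hvb hD.bd h0).trans ?_
    rw [hN, h4]
    apply le_of_eq
    have p1 : (0 : ℝ) < 4 ^ (k - j) := by positivity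
    have p2 : (0 : ℝ) < 4 ^ j := by positivity
    field_simp
  · have hN : Nk b k t.1 = 2 ^ k / (1 + nm t.1) ^ 3 := by unfold Nk; rw [if_neg hx]
    refine (hfar hx).trans ?_
    rw [hN]
    have hn : 0 ≤ nm t.1 := (abs_nonneg _).trans (le_max_left _ _)
    have p1 : (1 : ℝ) ≤ 4 ^ (k - j) := one_le_pow₀ (by norm_num)
    have p2 : 0 ≤ K * B * (2 * C) * A * 2 ^ k / (1 + nm t.1) ^ 3 := by positivity
    calc K * B * (2 * C) * A * 2 ^ k / (1 + nm t.1) ^ 3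
        ≤ K * B * (2 * C) * A * 2 ^ k / (1 + nm t.1) ^ 3 * 4 ^ (k - j) :=
          le_mul_of_one_le_right p2 p1
      _ = K * B * (2 * C) * A * 4 ^ (k - j) * (2 ^ k / (1 + nm t.1) ^ 3) := by ring

end Pool.Agent.Helper51.MKV
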